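import Mathlib
import Pool.Agent.H87.CS.Targets

/-!
# Module PNT of MP_cf7d1d_an (target `T_pnt`)
-/

set_option autoImplicit false

namespace Pool.Agent.H59.CS.Pnt

open Set Complex Topology Filter
open Pool.Agent.H87.CS

/-- squared Euclidean norm. -/
noncomputable def N2 (x : V2) : ℝ := ‖x 0‖ ^ 2 + ‖x 1‖ ^ 2

lemma N2_cont : Continuous N2 := by
  unfold N2
  exact ((continuous_apply 0).norm.pow 2).add ((continuous_apply 1).norm.pow 2)

lemma mvpoly_differentiable (p : MvPolynomial (Fin 2) ℂ) :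
    Differentiable ℂ (fun x : V2 => MvPolynomial.eval x p) := by
  induction p using MvPolynomial.induction_on with
  | C a => simp only [MvPolynomial.eval_C]; exact differentiable_const a
  | add p q hp hq => simp only [map_add]; exact hp.add hq
  | mul_X p i hp =>
    simp only [map_mul, MvPolynomial.eval_X]
    exact hp.mul (differentiable_apply (𝕜 := ℂ) i)

/-- Hurwitz: zeros are stable. -/
lemma hurwitz (G : ℝ → ℂ → ℂ) (hc : Continuous (fun q : ℝ × ℂ => G q.1 q.2))
    (hd : ∀ t, Differentiable ℂ (G t)) (h0 : G 0 0 = 0) (hne : ¬ ∀ᶠ w in 𝓝 (0:ℂ), G 0 w = 0)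
    (R : ℝ) (hR : 0 < R) : ∀ᶠ t : ℝ in 𝓝 0, ∃ w : ℂ, ‖w‖ ≤ R ∧ G t w = 0 := by
  have han : AnalyticAt ℂ (G 0) 0 := (hd 0).analyticAt 0
  have hne' := han.eventually_eq_zero_or_eventually_ne_zero.resolve_left hne
  rw [eventually_nhdsWithin_iff, Metric.eventually_nhds_iff_ball] at hne'
  obtain ⟨R', hR'0, hR'⟩ := hne'
  set r : ℝ := min R R' / 2 with hr
  have hmin0 : 0 < min R R' := lt_min hR hR'0
  have hr0 : 0 < r := by rw [hr]; linarith
  have hrR : r < R := by
    have : min R R' ≤ R := min_le_left _ _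
    rw [hr]; linarith
  have hrR' : r < R' := by
    have : min R R' ≤ R' := min_le_right _ _
    rw [hr]; linarith
  have hsK : IsCompact (Metric.sphere (0:ℂ) r) := isCompact_sphere 0 r
  have hsne : (Metric.sphere (0:ℂ) r).Nonempty := NormedSpace.sphere_nonempty.2 hr0.le
  obtain ⟨zm, hzm, hzmin⟩ := hsK.exists_isMinOn hsne
    ((hd 0).continuous.norm.continuousOn)
  set c : ℝ := ‖G 0 zm‖ with hc'
  have hc0 : 0 < c := by
    rw [hc', norm_pos_iff]
    have hdd : dist zm 0 = r := hzm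
    refine hR' zm (by rw [Metric.mem_ball, hdd]; exact hrR') ?_
    intro h
    rw [mem_singleton_iff] at h
    rw [h, dist_self] at hdd
    exact hr0.ne hdd
  have hmin : ∀ z ∈ Metric.sphere (0:ℂ) r, c ≤ ‖G 0 z‖ := fun z hz => hzmin hz
  have hs1 : ∀ᶠ t : ℝ in 𝓝 0, ∀ z ∈ Metric.sphere (0:ℂ) r, c / 2 < ‖G t z‖ := by
    refine hsK.eventually_forall_of_forall_eventually ?_
    intro z hz
    have hct : ContinuousAt (fun q : ℝ × ℂ => ‖G q.1 q.2‖) (0, z) := hc.norm.continuousAt
    exact hct.eventually (lt_mem_nhds (lt_of_lt_of_le (by linarith) (hmin z hz)))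
  have hs2 : ∀ᶠ t : ℝ in 𝓝 0, ‖G t 0‖ < c / 2 := by
    have hct : ContinuousAt (fun t : ℝ => ‖G t 0‖) 0 :=
      (hc.comp (Continuous.prodMk continuous_id continuous_const)).norm.continuousAt
    refine hct.eventually (gt_mem_nhds ?_)
    simp only [h0, norm_zero]
    linarith
  filter_upwards [hs1, hs2] with t hta htb
  by_contra hno
  push Not at hno
  have hnz : ∀ z ∈ Metric.closedBall (0:ℂ) r, G t z ≠ 0 := fun z hz =>
    hno z ((mem_closedBall_zero_iff.1 hz).trans hrR.le)
  have hDC : DiffContOnCl ℂ (fun z => (G t z)⁻¹) (Metric.ball 0 r) := by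
    refine DifferentiableOn.diffContOnCl ?_
    rw [closure_ball (0:ℂ) hr0.ne']
    intro z hz
    exact (((hd t) z).inv (hnz z hz)).differentiableWithinAt
  have hbd : ∀ z ∈ frontier (Metric.ball (0:ℂ) r), ‖(G t z)⁻¹‖ ≤ (c / 2)⁻¹ := by
    intro z hz
    rw [frontier_ball (0:ℂ) hr0.ne'] at hz
    rw [norm_inv]
    exact inv_anti₀ (by linarith) (hta z hz).le
  have hfin := Complex.norm_le_of_forall_mem_frontier_norm_le Metric.isBounded_ball hDC hbd
    (subset_closure (Metric.mem_ball_self hr0))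
  rw [norm_inv] at hfin
  have hpos : 0 < ‖G t 0‖ := norm_pos_iff.2 (hnz 0 (Metric.mem_closedBall_self hr0.le))
  have := (inv_le_inv₀ hpos (by linarith)).1 hfin
  linarith

/-- the linear function. -/
noncomputable def L (x c y : V2) : ℂ :=
  (y 0 - x 0) * (starRingEnd ℂ) (c 0) + (y 1 - x 1) * (starRingEnd ℂ) (c 1)

lemma L_cont (x c : V2) : Continuous (L x c) := by
  unfold L
  exact (((continuous_apply 0).sub continuous_const).mul continuous_const).add
    (((continuous_apply 1).sub continuous_const).mul continuous_const)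

/-- the orthogonal direction. -/
noncomputable def ee (c : V2) : V2 := ![-(starRingEnd ℂ) (c 1), (starRingEnd ℂ) (c 0)]

lemma L_move (x c y : V2) (t : ℝ) (w : ℂ) :
    L x c (y + (t:ℂ) • c + w • ee c) = L x c y + t * (N2 c : ℂ) := by
  have h0 : c 0 * (starRingEnd ℂ) (c 0) = ((‖c 0‖ ^ 2 : ℝ) : ℂ) := by
    rw [Complex.mul_conj, Complex.normSq_eq_norm_sq]
  have h1 : c 1 * (starRingEnd ℂ) (c 1) = ((‖c 1‖ ^ 2 : ℝ) : ℂ) := by
    rw [Complex.mul_conj, Complex.normSq_eq_norm_sq]
  simp only [L, ee, N2, Pi.add_apply, Pi.smul_apply, smul_eq_mul, Matrix.cons_val_zero,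
    Matrix.cons_val_one]
  rw [Complex.ofReal_add, ← h0, ← h1]
  ring

/-- main case. -/
lemma pnt_main (p : MvPolynomial (Fin 2) ℂ) (x c : V2) (s : ℝ) (hs : 0 < s) (hc : c ≠ 0)
    (hx : MvPolynomial.eval x p = 0) :
    ∃ y : V2, MvPolynomial.eval y p = 0 ∧ N2 (y - x) = s ^ 2 ∧ 0 ≤ (L x c y).re := by
  have hpd := mvpoly_differentiable p
  have hpc : Continuous (fun x : V2 => MvPolynomial.eval x p) := hpd.continuous
  have hNc : Continuous (fun y : V2 => N2 (y - x)) := N2_cont.comp (continuous_id.sub continuous_const)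
  have hLc : Continuous (fun y : V2 => (L x c y).re) := Complex.continuous_re.comp (L_cont x c)
  have hcpos : 0 < N2 c := by
    unfold N2
    by_contra h
    push Not at h
    have h0 : ‖c 0‖ ^ 2 = 0 := by nlinarith [sq_nonneg ‖c 0‖, sq_nonneg ‖c 1‖]
    have h1 : ‖c 1‖ ^ 2 = 0 := by nlinarith [sq_nonneg ‖c 0‖, sq_nonneg ‖c 1‖]
    apply hc
    funext i
    fin_cases i
    · simpa using h0
    · simpa using h1
  set C : Set V2 := {y | MvPolynomial.eval y p = 0 ∧ N2 (y - x) ≤ s ^ 2 ∧ 0 ≤ (L x c y).re} with hC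
  have hCcl : IsClosed C := by
    refine (isClosed_eq hpc continuous_const).inter ?_
    exact (isClosed_le hNc continuous_const).inter (isClosed_le continuous_const hLc)
  have hCb : C ⊆ Metric.closedBall x s := by
    intro y hy
    have hN := hy.2.1
    simp only [N2, Pi.sub_apply] at hN
    rw [Metric.mem_closedBall, dist_pi_le_iff hs.le]
    intro i
    rw [dist_eq_norm]
    refine abs_le_of_sq_le_sq' ?_ hs.le |>.2
    fin_cases i
    · change ‖y 0 - x 0‖ ^ 2 ≤ s ^ 2
      nlinarith [sq_nonneg ‖y 1 - x 1‖]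
    · change ‖y 1 - x 1‖ ^ 2 ≤ s ^ 2
      nlinarith [sq_nonneg ‖y 0 - x 0‖]
  have hCc : IsCompact C := (isCompact_closedBall x s).of_isClosed_subset hCcl hCb
  have hxC : x ∈ C := by
    refine ⟨hx, ?_, ?_⟩
    · have : N2 (x - x) = 0 := by simp [N2]
      rw [this]
      positivity
    · simp [L]
  obtain ⟨y, hyC, hymax⟩ := hCc.exists_isMaxOn ⟨x, hxC⟩ hLc.continuousOn
  by_cases hN : N2 (y - x) = s ^ 2
  · exact ⟨y, hyC.1, hN, hyC.2.2⟩
  have hNlt : N2 (y - x) < s ^ 2 := lt_of_le_of_ne hyC.2.1 hN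
  set m : ℝ → ℂ → V2 := fun t w => y + (t:ℂ) • c + w • ee c with hm
  have hmc : Continuous (fun q : ℝ × ℂ => m q.1 q.2) := by
    simp only [hm]
    refine (continuous_const.add ?_).add (continuous_snd.smul continuous_const)
    exact (Complex.continuous_ofReal.comp continuous_fst).smul continuous_const
  have hm0 : m 0 0 = y := by simp [hm]
  set G : ℝ → ℂ → ℂ := fun t w => MvPolynomial.eval (m t w) p with hG
  have hGd : ∀ t, Differentiable ℂ (G t) := by
    intro t
    have : Differentiable ℂ (m t) := by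
      simp only [hm]
      exact (differentiable_const _).add (differentiable_id.smul_const _)
    exact hpd.comp this
  have hG0 : G 0 0 = 0 := by
    simp only [hG, hm0]
    exact hyC.1
  by_cases hz : ∀ᶠ w in 𝓝 (0:ℂ), G 0 w = 0
  · -- the line is contained in the curve
    have hall : ∀ w, G 0 w = 0 := by
      have han : AnalyticOnNhd ℂ (G 0) univ := fun z _ => (hGd 0).analyticAt z
      intro w
      exact han.eqOn_zero_of_preconnected_of_eventuallyEq_zero isPreconnected_univ
        (mem_univ 0) hz (mem_univ w)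
    have hfc : Continuous (fun r : ℝ => N2 (m 0 (r:ℂ) - x)) :=
      hNc.comp (hmc.comp (Continuous.prodMk continuous_const Complex.continuous_ofReal))
    -- large value
    obtain ⟨i, hi⟩ : ∃ i : Fin 2, ee c i ≠ 0 := by
      by_contra h
      push Not at h
      have h0 := h 0
      have h1 := h 1
      simp only [ee, Matrix.cons_val_zero, Matrix.cons_val_one, neg_eq_zero, map_eq_zero] at h0 h1
      apply hc
      funext i
      fin_cases i
      · exact h1
      · exact h0
    set r1 : ℝ := (‖y i - x i‖ + s) / ‖ee c i‖ with hr1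
    have hipos : 0 < ‖ee c i‖ := norm_pos_iff.2 hi
    have hr1n : 0 ≤ r1 := by rw [hr1]; positivity
    have hge : s ^ 2 ≤ N2 (m 0 (r1:ℂ) - x) := by
      have h1 : s ≤ ‖(m 0 (r1:ℂ) - x) i‖ := by
        have e1 : (m 0 (r1:ℂ) - x) i = (r1:ℂ) * ee c i - (-(y i - x i)) := by
          simp only [hm, Pi.sub_apply, Pi.add_apply, Pi.smul_apply, smul_eq_mul,
            Complex.ofReal_zero, zero_mul, add_zero]
          ring
        rw [e1]
        refine le_trans ?_ (norm_sub_norm_le _ _)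
        rw [norm_mul, norm_neg, Complex.norm_real, Real.norm_of_nonneg hr1n, hr1,
          div_mul_cancel₀ _ hipos.ne']
        linarith
      have h2 : ‖(m 0 (r1:ℂ) - x) i‖ ^ 2 ≤ N2 (m 0 (r1:ℂ) - x) := by
        unfold N2
        fin_cases i
        · change ‖(m 0 (r1:ℂ) - x) 0‖ ^ 2 ≤ _
          nlinarith [sq_nonneg ‖(m 0 (r1:ℂ) - x) 1‖]
        · change ‖(m 0 (r1:ℂ) - x) 1‖ ^ 2 ≤ _
          nlinarith [sq_nonneg ‖(m 0 (r1:ℂ) - x) 0‖]
      nlinarith
    have hiv : s ^ 2 ∈ (fun r : ℝ => N2 (m 0 (r:ℂ) - x)) '' Icc 0 r1 := by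
      refine intermediate_value_Icc hr1n hfc.continuousOn ⟨?_, hge⟩
      simp only [Complex.ofReal_zero, hm0]
      exact hNlt.le
    obtain ⟨r, -, hr⟩ := hiv
    refine ⟨m 0 (r:ℂ), hall _, hr, ?_⟩
    have := L_move x c y 0 (r:ℂ)
    simp only [hm]
    rw [this]
    simp only [Complex.ofReal_zero, zero_mul, add_zero]
    exact hyC.2.2
  · exfalso
    have hcont : ContinuousAt (fun q : ℝ × ℂ => N2 (m q.1 q.2 - x)) (0, 0) :=
      (hNc.comp hmc).continuousAt
    have hev : ∀ᶠ q : ℝ × ℂ in 𝓝 (0, 0), N2 (m q.1 q.2 - x) < s ^ 2 := by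
      refine hcont.eventually (gt_mem_nhds ?_)
      simp only [hm0]
      exact hNlt
    rw [Metric.eventually_nhds_iff_ball] at hev
    obtain ⟨ρ, hρ, hball⟩ := hev
    have hH := hurwitz G (hpc.comp hmc) hGd hG0 hz (ρ / 2) (by linarith)
    have h1 : ∀ᶠ t : ℝ in 𝓝[>] 0, t < ρ := (eventually_lt_nhds hρ).filter_mono nhdsWithin_le_nhds
    have h2 : ∀ᶠ t : ℝ in 𝓝[>] 0, 0 < t := eventually_mem_nhdsWithin
    obtain ⟨t, ⟨w, hw, hGw⟩, ht1, ht2⟩ :=
      ((hH.filter_mono nhdsWithin_le_nhds).and (h1.and h2)).exists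
    have hlt : N2 (m t w - x) < s ^ 2 := by
      refine hball (t, w) ?_
      rw [Metric.mem_ball, Prod.dist_eq, max_lt_iff]
      refine ⟨?_, ?_⟩
      · simp only [dist_zero_right, Real.norm_eq_abs, abs_of_pos ht2]
        exact ht1
      · simp only [dist_zero_right]
        linarith
    have hLm : (L x c (m t w)).re = (L x c y).re + t * N2 c := by
      simp only [hm]
      rw [L_move]
      simp only [Complex.add_re, Complex.mul_re, Complex.ofReal_re, Complex.ofReal_im, mul_zero,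
        sub_zero]
    have hpos : 0 < t * N2 c := mul_pos ht2 hcpos
    have hmem : m t w ∈ C := ⟨hGw, hlt.le, by rw [hLm]; linarith [hyC.2.2]⟩
    have : (L x c (m t w)).re ≤ (L x c y).re := hymax hmem
    rw [hLm] at this
    linarith

/-- Module PNT. -/
theorem pnt : T_pnt := by
  intro p x c s hs hx
  rcases hs.eq_or_lt with h0 | hpos
  · refine ⟨x, hx, ?_, ?_⟩
    · rw [← h0]; simp
    · simp
  · by_cases hc : c = 0
    · obtain ⟨y, hy, hN, -⟩ := pnt_main p x ![1, 0] s hpos (by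
        intro h
        have := congrFun h 0
        simp at this) hx
      refine ⟨y, hy, hN, ?_⟩
      rw [hc]; simp
    · obtain ⟨y, hy, hN, hL⟩ := pnt_main p x c s hpos hc hx
      exact ⟨y, hy, hN, hL⟩

end Pool.Agent.H59.CS.Pnt
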