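import Mathlib
import Pool.Agent.H87.CS.Targets

/-!
# Module TOUCH of MP_cf7d1d_an (target `T_touch`)
-/

set_option autoImplicit false

namespace Pool.Agent.H59.CS

open Set Complex Topology Filter
open Pool.Agent.H87.CS

/-- squared Euclidean norm. -/
noncomputable def N2 (x : V2) : ℝ := ‖x 0‖ ^ 2 + ‖x 1‖ ^ 2

/-- swap of the coordinates. -/
def sw (x : V2) : V2 := ![x 1, x 0]

lemma sw_sw (x : V2) : sw (sw x) = x := by
  funext i; fin_cases i <;> rfl

lemma N2_sw (x : V2) : N2 (sw x) = N2 x := by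
  simp only [N2, sw, Matrix.cons_val_zero, Matrix.cons_val_one]
  ring

lemma sw_smul (t : ℝ) (x : V2) : sw (t • x) = t • sw x := by
  funext i; fin_cases i <;> rfl

lemma sw_pt1 (z w : ℂ) : sw (pt1 z w) = pt2 z w := by
  funext i; fin_cases i <;> rfl

lemma sw_pt2 (z w : ℂ) : sw (pt2 z w) = pt1 z w := by
  funext i; fin_cases i <;> rfl

lemma sw_mem_W {F : ℝ → ℂ → ℂ} {x : V2} (hx : x ∈ W F) : sw x ∈ W F := by
  obtain ⟨τ, z, t, hz, h0, h1, h | h⟩ := hx
  · exact ⟨τ, z, t, hz, h0, h1, Or.inr (by rw [h, sw_smul, sw_pt1])⟩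
  · exact ⟨τ, z, t, hz, h0, h1, Or.inl (by rw [h, sw_smul, sw_pt2])⟩

lemma sw_mem_X0 {F : ℝ → ℂ → ℂ} {E : Set (ℝ × ℂ)} {x : V2} (hx : x ∈ X0 F E) :
    sw x ∈ X0 F E := by
  obtain ⟨τ, z, he, hz, h | h⟩ := hx
  · exact ⟨τ, z, he, hz, Or.inr (by rw [h, sw_pt1])⟩
  · exact ⟨τ, z, he, hz, Or.inl (by rw [h, sw_pt2])⟩

/-- `Re F(., z)` is onto. -/
lemma re_surj {F : ℝ → ℂ → ℂ} {E : Set (ℝ × ℂ)} (hF : Fam F E) (z : ℂ) (c : ℝ) :
    ∃ τ : ℝ, (F τ z).re = c := by
  have hc : Continuous (fun τ : ℝ => (F τ z).re) :=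
    Complex.continuous_re.comp (hF.cont.comp (Continuous.prodMk continuous_id continuous_const))
  have htop : Tendsto (fun τ : ℝ => (F τ z).re) atTop atTop := by
    refine tendsto_atTop_mono' atTop ?_
      (tendsto_atTop_add_const_left atTop ((F 0 z).re) (tendsto_id.atTop_div_const (by norm_num : (0:ℝ) < 2)))
    filter_upwards [eventually_ge_atTop (0:ℝ)] with τ hτ
    have := hF.mono z 0 τ hτ
    simp only [id]
    linarith
  have hbot : Tendsto (fun τ : ℝ => (F τ z).re) atBot atBot := by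
    refine tendsto_atBot_mono' atBot ?_
      (tendsto_atBot_add_const_left atBot ((F 0 z).re) (tendsto_id.atBot_div_const (by norm_num : (0:ℝ) < 2)))
    filter_upwards [eventually_le_atBot (0:ℝ)] with τ hτ
    have := hF.mono z τ 0 hτ
    simp only [id]
    linarith
  exact hc.surjective htop hbot c

lemma norm_exp_aux (w : ℂ) :
    ‖Complex.exp (2 * Real.pi * I * w)‖ = Real.exp (-(2 * Real.pi * w.im)) := by
  rw [Complex.norm_exp]
  congr 1
  simp

lemma exp_aux (w : ℂ) :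
    Complex.exp (2 * Real.pi * I * w) =
      (Real.exp (-(2 * Real.pi * w.im)) : ℝ) * Complex.exp ((2 * Real.pi * w.re : ℝ) * I) := by
  rw [Complex.ofReal_exp, ← Complex.exp_add]
  congr 1
  conv_lhs => rw [← Complex.re_add_im w]
  push_cast
  linear_combination (2 * Real.pi * w.im : ℂ) * Complex.I_sq

/-- rim points are not extremal. -/
lemma rim_point {F : ℝ → ℂ → ℂ} {E : Set (ℝ × ℂ)} (hF : Fam F E) (τ : ℝ) (z : ℂ)
    (hz : ‖z‖ = 2) :
    ∃ (t : ℝ) (x : V2), 0 ≤ t ∧ t < 1 ∧ x ∈ W F ∧ pt1 z (F τ z) = t • x := by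
  set w1 : ℂ := Complex.exp (2 * Real.pi * I * F τ z) with hw1
  have hz0 : z ≠ 0 := by
    intro h; rw [h, norm_zero] at hz; norm_num at hz
  set z' : ℂ := z⁻¹ with hz'
  have hz'n : ‖z'‖ = 1 / 2 := by rw [hz', norm_inv, hz]; norm_num
  set q1 : ℂ := z * w1 with hq1
  have hq1n : ‖q1‖ = 2 * Real.exp (-(2 * Real.pi * (F τ z).im)) := by
    rw [hq1, norm_mul, hz, hw1, norm_exp_aux]
  obtain ⟨τ', hτ'⟩ := re_surj hF z' (Complex.arg q1 / (2 * Real.pi))
  set w' : ℂ := Complex.exp (2 * Real.pi * I * F τ' z') with hw'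
  have hw'n : ‖w'‖ = Real.exp (-(2 * Real.pi * (F τ' z').im)) := norm_exp_aux _
  have hlt : ‖q1‖ < ‖w'‖ := by
    rw [hq1n, hw'n]
    exact hF.rim τ z τ' z' hz hz'n
  have hw'pos : 0 < ‖w'‖ := lt_of_le_of_lt (norm_nonneg _) hlt
  have hq1e : q1 = ((‖q1‖ / ‖w'‖ : ℝ) : ℂ) * w' := by
    have h1 : (‖q1‖ : ℂ) * Complex.exp (Complex.arg q1 * I) = q1 :=
      Complex.norm_mul_exp_arg_mul_I q1
    have h2 : w' = (‖w'‖ : ℂ) * Complex.exp (Complex.arg q1 * I) := by
      conv_lhs => rw [hw', exp_aux]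
      rw [hw'n, hτ']
      congr 3
      have : (2 * Real.pi) ≠ 0 := by positivity
      field_simp
    have h3 : (‖w'‖ : ℂ) ≠ 0 := by
      exact_mod_cast hw'pos.ne'
    rw [h2]
    conv_lhs => rw [← h1]
    push_cast
    have h4 : ‖(‖w'‖ : ℂ) * Complex.exp (Complex.arg q1 * I)‖ = ‖w'‖ := by rw [← h2]
    rw [h4]
    field_simp
  refine ⟨‖q1‖ / ‖w'‖, pt2 z' (F τ' z'), by positivity, (div_lt_one hw'pos).2 hlt, ?_, ?_⟩
  · exact ⟨τ', z', 1, by rw [hz'n]; norm_num, by norm_num, le_rfl, Or.inr (by rw [one_smul])⟩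
  · funext i
    fin_cases i
    · change w1 = (‖q1‖ / ‖w'‖ : ℝ) • (z' * w')
      rw [Complex.real_smul]
      have : w1 = z' * q1 := by rw [hq1, hz']; field_simp
      rw [this]
      conv_lhs => rw [hq1e]
      ring
    · change q1 = (‖q1‖ / ‖w'‖ : ℝ) • w'
      rw [Complex.real_smul]
      exact hq1e

lemma pt1_mem_W {F : ℝ → ℂ → ℂ} (τ : ℝ) {z : ℂ} (hz : ‖z‖ ≤ 2) : pt1 z (F τ z) ∈ W F :=
  ⟨τ, z, 1, hz, by norm_num, le_rfl, Or.inl (by rw [one_smul])⟩

lemma pt2_mem_W {F : ℝ → ℂ → ℂ} (τ : ℝ) {z : ℂ} (hz : ‖z‖ ≤ 2) : pt2 z (F τ z) ∈ W F :=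
  ⟨τ, z, 1, hz, by norm_num, le_rfl, Or.inr (by rw [one_smul])⟩

/-- A map into `C^2` with a local maximum of the Euclidean norm is locally constant. -/
lemma locally_const {φ : ℂ → V2} {z0 : ℂ} (hd : ∀ᶠ z in 𝓝 z0, DifferentiableAt ℂ φ z)
    (hm : ∀ᶠ z in 𝓝 z0, N2 (φ z) ≤ N2 (φ z0)) : ∀ᶠ z in 𝓝 z0, φ z = φ z0 := by
  let e := (EuclideanSpace.equiv (Fin 2) ℂ).symm
  have hN : ∀ x : V2, ‖e x‖ ^ 2 = N2 x := by
    intro x
    rw [EuclideanSpace.norm_sq_eq]
    simp [N2, e, Fin.sum_univ_two]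
  have h1 : ∀ᶠ z in 𝓝 z0, DifferentiableAt ℂ (fun z => e (φ z)) z := by
    filter_upwards [hd] with z hz
    exact e.differentiableAt.comp z hz
  have h2 : IsLocalMax (norm ∘ (fun z => e (φ z))) z0 := by
    filter_upwards [hm] with z hz
    have := hN (φ z)
    have h' := hN (φ z0)
    simp only [Function.comp]
    nlinarith [norm_nonneg (e (φ z)), norm_nonneg (e (φ z0))]
  filter_upwards [Complex.eventually_eq_of_isLocalMax_norm h1 h2] with z hz
  exact e.injective hz

/-- Main step. -/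
lemma main_step {F : ℝ → ℂ → ℂ} {E : Set (ℝ × ℂ)} (hF : Fam F E) (P : V2 → ℂ)
    (hP : Differentiable ℂ P) (h1 : ∀ t : ℝ, 0 ≤ t → t < 1 → ∀ x ∈ W F, P (t • x) ≠ 0)
    (h2 : ∀ x ∈ X0 F E, P x ≠ 0) (τ : ℝ) (z0 : ℂ) (hz0 : ‖z0‖ ≤ 2)
    (hq : P (pt1 z0 (F τ z0)) = 0)
    (hmax : ∀ x ∈ W F, P x = 0 → N2 x ≤ N2 (pt1 z0 (F τ z0))) : False := by
  -- the norm of z0 is smaller than 2
  have hlt : ‖z0‖ < 2 := by
    refine lt_of_le_of_ne hz0 fun h => ?_
    obtain ⟨t, x, ht0, ht1, hx, he⟩ := rim_point hF τ z0 h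
    exact h1 t ht0 ht1 x hx (he ▸ hq)
  have hE : (τ, z0) ∉ E := fun h => h2 _ ⟨τ, z0, h, hz0, Or.inl rfl⟩ hq
  set φ : ℂ → V2 := fun z => pt1 z (F τ z) with hφ
  have hφd : ∀ z, DifferentiableAt ℂ (F τ) z → DifferentiableAt ℂ φ z := by
    intro z hz
    rw [differentiableAt_pi]
    intro i
    have he : DifferentiableAt ℂ (fun z => Complex.exp (2 * Real.pi * I * F τ z)) z :=
      (hz.const_mul _).cexp
    fin_cases i
    · exact he
    · exact differentiableAt_id.mul he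
  have hev : ∀ᶠ z in 𝓝 z0, DifferentiableAt ℂ (F τ) z ∧ ‖z‖ < 2 :=
    (hF.hol τ z0 hE).and (continuous_norm.continuousAt.eventually (gt_mem_nhds hlt))
  obtain ⟨R, hR0, hR⟩ := Metric.eventually_nhds_iff_ball.1 hev
  have hgd : ∀ z ∈ Metric.ball z0 R, DifferentiableAt ℂ (fun z => P (φ z)) z := fun z hz =>
    (hP.differentiableAt).comp z (hφd z (hR z hz).1)
  have hφW : ∀ z ∈ Metric.ball z0 R, φ z ∈ W F := fun z hz => pt1_mem_W τ (hR z hz).2.le
  have han : AnalyticAt ℂ (fun z => P (φ z)) z0 :=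
    DifferentiableOn.analyticAt (s := Metric.ball z0 R)
      (fun z hz => (hgd z hz).differentiableWithinAt) (Metric.ball_mem_nhds z0 hR0)
  have hball : ∀ᶠ z in 𝓝 z0, z ∈ Metric.ball z0 R := Metric.ball_mem_nhds z0 hR0
  rcases han.eventually_eq_zero_or_eventually_ne_zero with h0 | hne
  · -- the curve contains the leaf
    have hm : ∀ᶠ z in 𝓝 z0, N2 (φ z) ≤ N2 (φ z0) := by
      filter_upwards [h0, hball] with z hz hzb
      exact hmax (φ z) (hφW z hzb) hz
    have hd : ∀ᶠ z in 𝓝 z0, DifferentiableAt ℂ φ z := by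
      filter_upwards [hball] with z hz
      exact hφd z (hR z hz).1
    have hc := locally_const hd hm
    have hz : ∀ᶠ z in 𝓝 z0, z = z0 := by
      filter_upwards [hc] with z hz
      have e0 : Complex.exp (2 * Real.pi * I * F τ z) = Complex.exp (2 * Real.pi * I * F τ z0) :=
        congrFun hz 0
      have e1 : z * Complex.exp (2 * Real.pi * I * F τ z) =
          z0 * Complex.exp (2 * Real.pi * I * F τ z0) := congrFun hz 1
      rw [e0] at e1
      exact mul_right_cancel₀ (Complex.exp_ne_zero _) e1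
    have hn : (𝓝[≠] z0).NeBot := inferInstance
    have h3 : ∀ᶠ z in 𝓝[≠] z0, z = z0 := hz.filter_mono nhdsWithin_le_nhds
    have h4 : ∀ᶠ z in 𝓝[≠] z0, z ≠ z0 := eventually_mem_nhdsWithin
    obtain ⟨z, hz1, hz2⟩ := (h3.and h4).exists
    exact hz2 hz1
  · -- Hurwitz
    rw [eventually_nhdsWithin_iff, Metric.eventually_nhds_iff_ball] at hne
    obtain ⟨R', hR'0, hR'⟩ := hne
    set r : ℝ := min R R' / 2 with hr
    have hr0 : 0 < r := by
      have : 0 < min R R' := lt_min hR0 hR'0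
      rw [hr]; linarith
    have hrR : r < R := by
      have : min R R' ≤ R := min_le_left _ _
      have h' : 0 < min R R' := lt_min hR0 hR'0
      rw [hr]; linarith
    have hrR' : r < R' := by
      have : min R R' ≤ R' := min_le_right _ _
      have h' : 0 < min R R' := lt_min hR0 hR'0
      rw [hr]; linarith
    have hcb : ∀ z ∈ Metric.closedBall z0 r, z ∈ Metric.ball z0 R := fun z hz =>
      lt_of_le_of_lt (Metric.mem_closedBall.1 hz) hrR
    have hcφ : ContinuousOn φ (Metric.closedBall z0 r) := fun z hz =>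
      (hφd z (hR z (hcb z hz)).1).continuousAt.continuousWithinAt
    -- minimum on the sphere
    have hsK : IsCompact (Metric.sphere z0 r) := isCompact_sphere z0 r
    have hsne : (Metric.sphere z0 r).Nonempty := NormedSpace.sphere_nonempty.2 hr0.le
    obtain ⟨zm, hzm, hzmin⟩ := hsK.exists_isMinOn hsne
      ((continuous_norm.comp_continuousOn (hP.continuous.comp_continuousOn
        (hcφ.mono Metric.sphere_subset_closedBall))))
    set c : ℝ := ‖P (φ zm)‖ with hc
    have hc0 : 0 < c := by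
      rw [hc, norm_pos_iff]
      have hd : dist zm z0 = r := hzm
      refine hR' zm (by rw [Metric.mem_ball, hd]; exact hrR') ?_
      intro h
      rw [mem_singleton_iff] at h
      rw [h, dist_self] at hd
      exact hr0.ne hd
    have hmin : ∀ z ∈ Metric.sphere z0 r, c ≤ ‖P (φ z)‖ := fun z hz => hzmin hz
    -- for s close to 1
    have hs1 : ∀ᶠ s : ℝ in 𝓝 1, ∀ z ∈ Metric.sphere z0 r, c / 2 < ‖P (s • φ z)‖ := by
      refine hsK.eventually_forall_of_forall_eventually ?_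
      intro z hz
      have hzc : ContinuousAt φ z :=
        (hφd z (hR z (hcb z (Metric.sphere_subset_closedBall hz))).1).continuousAt
      have hct : ContinuousAt (fun q : ℝ × ℂ => ‖P (q.1 • φ q.2)‖) (1, z) := by
        refine ContinuousAt.norm (hP.continuous.continuousAt.comp ?_)
        exact continuousAt_fst.smul (ContinuousAt.comp (x := ((1:ℝ), z)) (f := Prod.snd) hzc
          continuousAt_snd)
      refine hct.eventually (lt_mem_nhds ?_)
      simp only [one_smul]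
      exact lt_of_lt_of_le (by linarith) (hmin z hz)
    have hs2 : ∀ᶠ s : ℝ in 𝓝 1, ‖P (s • φ z0)‖ < c / 2 := by
      have hct : ContinuousAt (fun s : ℝ => ‖P (s • φ z0)‖) 1 :=
        (hP.continuous.comp (continuous_id.smul continuous_const)).norm.continuousAt
      refine hct.eventually (gt_mem_nhds ?_)
      simp only [one_smul]
      have : P (φ z0) = 0 := hq
      rw [this, norm_zero]
      linarith
    have hs3 : ∀ᶠ s : ℝ in 𝓝[<] 1, 0 ≤ s ∧ s < 1 := by
      have ha : ∀ᶠ s : ℝ in 𝓝[<] 1, s < 1 := eventually_mem_nhdsWithin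
      have hb : ∀ᶠ s : ℝ in 𝓝[<] 1, (0:ℝ) ≤ s :=
        (eventually_ge_nhds (by norm_num : (0:ℝ) < 1)).filter_mono nhdsWithin_le_nhds
      exact hb.and ha
    obtain ⟨s, ⟨hsa, hsb⟩, hs0, hs⟩ :=
      (((hs1.and hs2).filter_mono nhdsWithin_le_nhds).and hs3).exists
    -- maximum principle for the inverse
    have hnz : ∀ z ∈ Metric.closedBall z0 r, P (s • φ z) ≠ 0 := fun z hz =>
      h1 s hs0 hs _ (hφW z (hcb z hz))
    have hdG : ∀ z ∈ Metric.closedBall z0 r, DifferentiableAt ℂ (fun z => P (s • φ z)) z := by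
      intro z hz
      refine (hP.differentiableAt).comp z ?_
      exact (hφd z (hR z (hcb z hz)).1).const_smul s
    have hDC : DiffContOnCl ℂ (fun z => (P (s • φ z))⁻¹) (Metric.ball z0 r) := by
      refine DifferentiableOn.diffContOnCl ?_
      rw [closure_ball z0 hr0.ne']
      intro z hz
      exact ((hdG z hz).inv (hnz z hz)).differentiableWithinAt
    have hbd : ∀ z ∈ frontier (Metric.ball z0 r), ‖(P (s • φ z))⁻¹‖ ≤ (c / 2)⁻¹ := by
      intro z hz
      rw [frontier_ball z0 hr0.ne'] at hz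
      rw [norm_inv]
      exact inv_anti₀ (by linarith) (hsa z hz).le
    have hfin := Complex.norm_le_of_forall_mem_frontier_norm_le Metric.isBounded_ball hDC hbd
      (subset_closure (Metric.mem_ball_self hr0))
    rw [norm_inv] at hfin
    have hpos : 0 < ‖P (s • φ z0)‖ := norm_pos_iff.2 (hnz z0 (Metric.mem_closedBall_self hr0.le))
    have := (inv_le_inv₀ hpos (by linarith)).1 hfin
    linarith

lemma sw_differentiable : Differentiable ℂ sw := by
  rw [differentiable_pi]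
  intro i
  fin_cases i
  · exact differentiable_apply (𝕜 := ℂ) (1 : Fin 2)
  · exact differentiable_apply (𝕜 := ℂ) (0 : Fin 2)

lemma mvpoly_differentiable (p : MvPolynomial (Fin 2) ℂ) :
    Differentiable ℂ (fun x : V2 => MvPolynomial.eval x p) := by
  induction p using MvPolynomial.induction_on with
  | C a => simp only [MvPolynomial.eval_C]; exact differentiable_const a
  | add p q hp hq => simp only [map_add]; exact hp.add hq
  | mul_X p i hp =>
    simp only [map_mul, MvPolynomial.eval_X]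
    exact hp.mul (differentiable_apply (𝕜 := ℂ) i)

/-- Module TOUCH. -/
theorem touch (hgeo : T_geo1) : T_touch := by
  intro F E hF p hp0 hX x1 hx1 hpx1
  have hWc : IsCompact (W F) := (hgeo F E hF).2.1
  have hpd := mvpoly_differentiable p
  have hpc : Continuous (fun x : V2 => MvPolynomial.eval x p) := hpd.continuous
  -- the minimal parameter
  set K : Set (ℝ × V2) := (Icc 0 1 ×ˢ W F) ∩ {q | MvPolynomial.eval (q.1 • q.2) p = 0} with hK
  have hKc : IsCompact K := by
    refine (isCompact_Icc.prod hWc).inter_right ?_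
    exact isClosed_eq (hpc.comp (continuous_fst.smul continuous_snd)) continuous_const
  have hKne : K.Nonempty := ⟨(1, x1), ⟨⟨by norm_num, by norm_num⟩, hx1⟩, by
    simp only [mem_setOf_eq, one_smul]; exact hpx1⟩
  obtain ⟨⟨ts, xs⟩, ⟨⟨⟨hts0, hts1⟩, hxs⟩, hpts⟩, htmin⟩ :=
    hKc.exists_isMinOn hKne (continuous_fst.continuousOn (s := K))
  simp only at hts0 hts1 hxs hpts
  have hmin : ∀ t : ℝ, 0 ≤ t → t < ts → ∀ x ∈ W F, MvPolynomial.eval (t • x) p ≠ 0 := by
    intro t ht0 ht x hx h0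
    have : ts ≤ t := htmin (a := (t, x)) ⟨⟨⟨ht0, le_trans ht.le hts1⟩, hx⟩, h0⟩
    linarith
  have hts : 0 < ts := by
    refine lt_of_le_of_ne hts0 fun h => ?_
    simp only [mem_setOf_eq, ← h, zero_smul] at hpts
    exact hp0 hpts
  set P : V2 → ℂ := fun x => MvPolynomial.eval (ts • x) p with hP
  have hPd : Differentiable ℂ P := by
    have : Differentiable ℂ (fun x : V2 => ts • x) := differentiable_id.const_smul ts
    exact hpd.comp this
  have h1 : ∀ t : ℝ, 0 ≤ t → t < 1 → ∀ x ∈ W F, P (t • x) ≠ 0 := by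
    intro t ht0 ht1 x hx
    simp only [hP, smul_smul]
    exact hmin (ts * t) (by positivity) (by nlinarith) x hx
  have h2 : ∀ x ∈ X0 F E, P x ≠ 0 := fun x hx => hX x hx ts hts0 hts1
  -- zero of maximal norm
  set C : Set V2 := W F ∩ {x | P x = 0} with hC
  have hCc : IsCompact C := hWc.inter_right (isClosed_eq hPd.continuous continuous_const)
  have hCne : C.Nonempty := ⟨xs, hxs, hpts⟩
  have hN2c : Continuous N2 := by
    unfold N2
    exact ((continuous_apply 0).norm.pow 2).add ((continuous_apply 1).norm.pow 2)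
  obtain ⟨q, ⟨hqW, hq0⟩, hqmax⟩ := hCc.exists_isMaxOn hCne hN2c.continuousOn
  have hmx : ∀ x ∈ W F, P x = 0 → N2 x ≤ N2 q := fun x hx hx0 => hqmax ⟨hx, hx0⟩
  obtain ⟨τ, z, t, hz, ht0, ht1, hq⟩ := hqW
  have ht : t = 1 := by
    by_contra hne
    have hlt : t < 1 := lt_of_le_of_ne ht1 hne
    rcases hq with hq | hq
    · exact h1 t ht0 hlt _ (pt1_mem_W τ hz) (hq ▸ hq0)
    · exact h1 t ht0 hlt _ (pt2_mem_W τ hz) (hq ▸ hq0)
  rw [ht, one_smul, one_smul] at hq
  rcases hq with hq | hq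
  · subst hq
    exact main_step hF P hPd h1 h2 τ z hz hq0 hmx
  · subst hq
    refine main_step hF (fun x => P (sw x)) (hPd.comp sw_differentiable) ?_ ?_ τ z hz ?_ ?_
    · intro t ht0 ht1 x hx
      simp only [sw_smul]
      exact h1 t ht0 ht1 _ (sw_mem_W hx)
    · intro x hx
      exact h2 _ (sw_mem_X0 hx)
    · simp only [sw_pt1]
      exact hq0
    · intro x hx hx0
      have := hmx (sw x) (sw_mem_W hx) hx0
      rw [N2_sw] at this
      refine this.trans (le_of_eq ?_)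
      rw [← sw_pt1, N2_sw]

end Pool.Agent.H59.CS
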